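import Pool.Agent.H64.GG.TB

set_option autoImplicit false

/-!
# Row BRG: representations over `F` and over `ℚ`
-/

namespace Pool.Agent.H1.RGD

open NumberField Height Finset Polynomial Pool.Agent.H24.RD Pool.Agent.H23.RDD Pool.Agent.H29.RQ
  Pool.Agent.H29.SX Pool.Agent.H29.LG Pool.Agent.H64.GG

/-- automorphisms and generators -/
theorem fix_adj {F Ω : Type} [Field F] [Field Ω] [Algebra F Ω] (S : Set Ω) (σ : Ω ≃ₐ[F] Ω)
    (h : ∀ z ∈ S, σ z = z) : ∀ z ∈ IntermediateField.adjoin F S, σ z = z := by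
  intro z hz
  induction hz using IntermediateField.adjoin_induction with
  | mem x hx => exact h x hx
  | algebraMap x => exact σ.commutes x
  | add x y _ _ hx hy => rw [map_add, hx, hy]
  | inv x _ hx => rw [map_inv₀, hx]
  | mul x y _ _ hx hy => rw [map_mul, hx, hy]

theorem pf_BRG : T_BRG := by
  intro r a N hG F _ γ hγ hF
  constructor
  · ext g
    constructor
    · rintro ⟨hg, n, hn, x, hx⟩
      obtain ⟨P, hP⟩ : ∃ P, P = ∏ i, N i := ⟨_, rfl⟩
      have hP0 : 0 < P := by
        rw [hP]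
        exact Finset.prod_pos fun i _ => hG.pos i
      choose Q hQ using fun i => (Finset.dvd_prod_of_mem N (Finset.mem_univ i) : N i ∣ ∏ i, N i)
      refine ⟨hg, n * P, Nat.mul_pos hn hP0, fun i => x i * Q i, ?_⟩
      rw [pow_mul, hx, ← Finset.prod_pow]
      refine Finset.prod_congr rfl fun i _ => ?_
      rw [← hγ i, hP, hQ i]
      show ((γ i : Om) ^ x i) ^ (N i * Q i) = ((γ i : Om) ^ N i) ^ (x i * Q i)
      rw [← zpow_natCast, ← zpow_natCast, ← zpow_mul, ← zpow_mul]
      congr 1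
      push_cast
      ring
    · rintro ⟨hg, n, hn, x, hx⟩
      refine ⟨hg, n, hn, fun i => N i * x i, ?_⟩
      rw [hx]
      refine Finset.prod_congr rfl fun i _ => ?_
      rw [← hγ i, zpow_mul, zpow_natCast]
      rfl
  · intro m d α hm
    have hDv : Dv F Om γ = Dv ℚ Om a := by
      ext g
      constructor
      · rintro ⟨hg, n, hn, x, hx⟩
        obtain ⟨P, hP⟩ : ∃ P, P = ∏ i, N i := ⟨_, rfl⟩
        have hP0 : 0 < P := by
          rw [hP]
          exact Finset.prod_pos fun i _ => hG.pos i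
        choose Q hQ using fun i => (Finset.dvd_prod_of_mem N (Finset.mem_univ i) : N i ∣ ∏ i, N i)
        refine ⟨hg, n * P, Nat.mul_pos hn hP0, fun i => x i * Q i, ?_⟩
        rw [pow_mul, hx, ← Finset.prod_pow]
        refine Finset.prod_congr rfl fun i _ => ?_
        rw [← hγ i, hP, hQ i]
        show ((γ i : Om) ^ x i) ^ (N i * Q i) = ((γ i : Om) ^ N i) ^ (x i * Q i)
        rw [← zpow_natCast, ← zpow_natCast, ← zpow_mul, ← zpow_mul]
        congr 1
        push_cast
        ring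
      · rintro ⟨hg, n, hn, x, hx⟩
        refine ⟨hg, n, hn, fun i => N i * x i, ?_⟩
        rw [hx]
        refine Finset.prod_congr rfl fun i _ => ?_
        rw [← hγ i, zpow_mul, zpow_natCast]
        rfl
    have hA : ∀ σ : Om ≃ₐ[ℚ] Om, (∀ z ∈ GF (fun i => (γ i : Om)) m, σ z = z) →
        ∃ τ : Om ≃ₐ[F] Om, (∀ x, τ x = σ x) ∧ ∀ z ∈ Lv F Om γ m 1, τ z = z := by
      intro σ hσ
      have hFG : F ≤ GF (fun i => (γ i : Om)) m := by
        conv_lhs => rw [hF]
        exact IntermediateField.adjoin.mono _ _ _ Set.subset_union_right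
      have hfix : ∀ x : F, σ (algebraMap F Om x) = algebraMap F Om x := fun x => hσ _ (hFG x.2)
      refine ⟨AlgEquiv.ofRingEquiv (f := σ.toRingEquiv) hfix, fun x => rfl, ?_⟩
      apply fix_adj
      rintro z (hz | ⟨i, hz⟩)
      · exact hσ z (IntermediateField.subset_adjoin _ _ (Or.inl hz))
      · rw [pow_one] at hz
        rw [hz]
        exact AlgEquiv.commutes _ _
    have hB : ∀ τ : Om ≃ₐ[F] Om, (∀ z ∈ Lv F Om γ m 1, τ z = z) →
        ∃ σ : Om ≃ₐ[ℚ] Om, (∀ x, σ x = τ x) ∧ ∀ z ∈ GF (fun i => (γ i : Om)) m, σ z = z := by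
      intro τ hτ
      refine ⟨τ.restrictScalars ℚ, fun x => rfl, ?_⟩
      apply fix_adj
      rintro z (hz | ⟨i, rfl⟩)
      · exact hτ z (IntermediateField.subset_adjoin _ _ (Or.inl hz))
      · exact τ.commutes (γ i)
    have hCj : ∀ β, Cj F Om (Lv F Om γ m 1) d β ↔ Cj ℚ Om (GF (fun i => (γ i : Om)) m) d β := by
      intro β
      constructor
      · rintro ⟨s, hs, h⟩
        refine ⟨s, hs, fun σ hσ => ?_⟩
        obtain ⟨τ, h1, h2⟩ := hA σ hσ
        rw [← h1]
        exact h τ h2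
      · rintro ⟨s, hs, h⟩
        refine ⟨s, hs, fun τ hτ => ?_⟩
        obtain ⟨σ, h1, h2⟩ := hB τ hτ
        rw [← h1]
        exact h σ h2
    have hRed : ∀ β, Red F Om (Lv F Om γ m 1) β ↔ Red ℚ Om (GF (fun i => (γ i : Om)) m) β := by
      intro β
      constructor
      · intro h σ hσ k hk hp
        obtain ⟨τ, h1, h2⟩ := hA σ hσ
        rw [← h1] at hp ⊢
        exact h τ h2 k hk hp
      · intro h τ hτ k hk hp
        obtain ⟨σ, h1, h2⟩ := hB τ hτ
        rw [← h1] at hp ⊢
        exact h σ h2 k hk hp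
    unfold RepD RepQ
    simp only [hCj, hRed, hDv]

end Pool.Agent.H1.RGD
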