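import Pool.Agent.H64.GG.TB
import Pool.Agent.H26.REM.Targets3
import Pool.Agent.H49.REM.GQP
import Pool.Agent.H29.LG.All

set_option autoImplicit false

/-!
# Row CYK: subfields of cyclotomic fields
-/

namespace Pool.Agent.H1.RGD

open NumberField Height Finset Polynomial Pool.Agent.H24.RD Pool.Agent.H23.RDD Pool.Agent.H29.RQ
  Pool.Agent.H29.SX Pool.Agent.H29.LG Pool.Agent.H64.GG

theorem cy_lv (m : ℕ) : Lv ℚ Om (![] : Fin 0 → ℚ) m 1 = CY m := by
  unfold Lv CY
  congr 1
  ext z
  constructor
  · rintro (h | ⟨i, -⟩)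
    · exact h
    · exact i.elim0
  · exact fun h => Or.inl h

theorem cy_nf (m : ℕ) (hm : 0 < m) : NumberField (CY m) := by
  have h1 : ({z | z ^ m = 1} : Set Om).Finite := by
    have h2 : (Polynomial.X ^ m - 1 : Om[X]) ≠ 0 := Polynomial.X_pow_sub_C_ne_zero hm 1
    refine (Polynomial.rootSet_finite (Polynomial.X ^ m - 1 : Om[X]) Om).subset ?_
    intro z hz
    rw [Polynomial.mem_rootSet_of_ne h2]
    have h3 : z ^ m = 1 := hz
    simp [h3]
  have hF : Finite ({z | z ^ m = 1} : Set Om) := h1
  have h4 : FiniteDimensional ℚ (CY m) := by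
    unfold CY
    apply IntermediateField.finiteDimensional_adjoin
    intro z hz
    have h5 : z ^ m = 1 := hz
    exact IsIntegral.of_pow hm (h5 ▸ isIntegral_one)
  exact { to_finiteDimensional := h4 }

theorem pf_CYK (hTOW : Pool.Agent.H26.REM.T_TOW) (hCYD : Pool.Agent.H26.REM.T_CYD) : T_CYK := by
  intro m K _ hm hK q hq hqm
  have hnf : NumberField (CY m) := cy_nf m hm
  let iA : Algebra K (CY m) := (IntermediateField.inclusion hK).toAlgebra
  have hmap : ∀ x : K, ((algebraMap K (CY m) x : CY m) : Om) = (x : Om) := fun _ => rfl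
  constructor
  · have : NeZero m := ⟨hm.ne'⟩
    have : NeZero (m : ℚ) := ⟨by exact_mod_cast hm.ne'⟩
    obtain ⟨ζ, hζ⟩ := HasEnoughRootsOfUnity.exists_primitiveRoot (AlgebraicClosure ℚ) m
    have hζm : ζ ∈ CY m := IntermediateField.subset_adjoin _ _ hζ.pow_eq_one
    obtain ⟨z, hz⟩ : ∃ z : CY m, z = ⟨ζ, hζm⟩ := ⟨_, rfl⟩
    have hzp : IsPrimitiveRoot z m := by
      rw [← IsPrimitiveRoot.map_iff_of_injective (f := algebraMap (CY m) Om)
        (algebraMap (CY m) Om).injective, hz]
      exact hζ
    have h1 := hCYD (CY m) m z hm hzp q hq hqm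
    have htop : IntermediateField.adjoin ℚ {z} = ⊤ := by
      have h2 : IntermediateField.map (CY m).val (IntermediateField.adjoin ℚ {z}) = CY m := by
        rw [IntermediateField.adjoin_map, Set.image_singleton]
        apply le_antisymm
        · rw [IntermediateField.adjoin_le_iff]
          rintro _ rfl
          rw [hz]
          exact hζm
        · conv_lhs => unfold CY
          rw [IntermediateField.adjoin_le_iff]
          intro x hx
          have hx' : x ^ m = 1 := hx
          obtain ⟨i, -, hi⟩ := hζ.eq_pow_of_pow_eq_one hx'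
          rw [← hi]
          refine pow_mem ?_ i
          have h3 : (CY m).val z = ζ := by rw [hz]; rfl
          rw [h3]
          exact IntermediateField.mem_adjoin_simple_self ℚ ζ
      rw [eq_top_iff]
      intro x _
      have h3 : (x : Om) ∈ IntermediateField.map (CY m).val (IntermediateField.adjoin ℚ {z}) := by
        rw [h2]
        exact x.2
      obtain ⟨y, hy, hyx⟩ := h3
      have : y = x := Subtype.ext hyx
      rw [← this]
      exact hy
    have h4 : discr (IntermediateField.adjoin ℚ {z}) = discr (CY m) := by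
      apply discr_eq_discr_of_algEquiv
      exact (IntermediateField.equivOfEq htop).trans IntermediateField.topEquiv
    rw [h4] at h1
    intro h5
    apply h1
    have h6 := hTOW K (CY m)
    have hfin : FiniteDimensional K (CY m) := Module.Finite.of_restrictScalars_finite ℚ K (CY m)
    have h7 : Module.finrank K (CY m) ≠ 0 := Module.finrank_pos.ne'
    exact h5.trans ((dvd_pow_self _ h7).trans h6)
  · intro v hv x hx
    obtain ⟨w, k, hk, hw⟩ := aEXTP K (CY m) v
    have hq0 : (q : K) ≠ 0 := by exact_mod_cast hq.ne_zero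
    have hvq : 0 < v.1 (q : K) := v.1.pos hq0
    have hwq : w.1 (q : CY m) = (v.1 (q : K)) ^ k := by
      have h := hw (q : K)
      rw [map_natCast (algebraMap K (CY m))] at h
      exact h
    have halg : Algebra.IsAlgebraic ℚ Om := AlgebraicClosure.isAlgebraic ℚ
    have hgood : GoodP ℚ (![] : Fin 0 → ℚ) q :=
      Pool.Agent.H49.REM.pf_GQP aVB 0 ![] (fun i => i.elim0) q hq fun i => i.elim0
    obtain ⟨n, hn⟩ := aUNK ℚ Om 0 ![] (fun i => i.elim0) q hgood m 1 hm (one_dvd _) hqm (CY m)
      (cy_lv m).le w (by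
        rw [hwq]
        exact Real.rpow_lt_one hvq.le hv hk) (algebraMap K (CY m) x) (by
        rw [cy_lv]
        exact (algebraMap K (CY m) x).2) (by
        intro h
        exact hx ((map_eq_zero _).1 h))
    refine ⟨n, ?_⟩
    rw [hw, hwq, ← Real.rpow_intCast, ← Real.rpow_mul hvq.le, mul_comm k, Real.rpow_mul hvq.le,
      Real.rpow_intCast] at hn
    exact (Real.rpow_left_inj (v.1.nonneg _) (zpow_nonneg hvq.le _) hk.ne').1 hn

end Pool.Agent.H1.RGD
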