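import Pool.Agent.H64.GG.TA
import Pool.Agent.H67.RD.VB

set_option autoImplicit false

/-!
# Row TRG: coordinates with respect to the radicals, up to the level
-/

namespace Pool.Agent.H1.RGD

open NumberField Height Finset Polynomial Pool.Agent.H24.RD Pool.Agent.H23.RDD Pool.Agent.H29.RQ
  Pool.Agent.H29.SX Pool.Agent.H29.LG Pool.Agent.H64.GG

section
variable {K M : Type} [Field K] [NumberField K] [Field M] [NumberField M] [Algebra K M]
  {r : ℕ} {a : Fin r → ℚ} {N : Fin r → ℕ} {θ : Fin r → M}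

/-- one radical -/
theorem one_rad {i : Fin r} (ha : a i ≠ 0) (hN : 0 < N i)
    (hθ : θ i ^ N i = algebraMap ℚ M (a i)) (l j' j : ℕ) (hj : j < N i) :
    ∃ q : ℚ, θ i ^ l * θ i ^ j' * (θ i ^ j)⁻¹ =
      algebraMap ℚ M q * θ i ^ ((l + j' + (N i - j)) % N i) := by
  have h0 : θ i ≠ 0 := by
    intro h
    rw [h, zero_pow hN.ne'] at hθ
    exact ha ((map_eq_zero _).1 hθ.symm)
  refine ⟨a i ^ ((l + j' + (N i - j)) / N i) / a i, ?_⟩
  have h1 : θ i ^ (l + j' + (N i - j)) = algebraMap ℚ M (a i) ^ ((l + j' + (N i - j)) / N i) *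
      θ i ^ ((l + j' + (N i - j)) % N i) := by
    rw [← hθ, ← pow_mul, ← pow_add, Nat.div_add_mod]
  have h2 : θ i ^ (l + j' + (N i - j)) * θ i ^ j = θ i ^ l * θ i ^ j' * algebraMap ℚ M (a i) := by
    rw [← hθ, ← pow_add, ← pow_add, ← pow_add]
    congr 1
    omega
  have h3 : algebraMap ℚ M (a i) ≠ 0 := fun h => ha ((map_eq_zero _).1 h)
  have h4 : θ i ^ j ≠ 0 := pow_ne_zero _ h0
  rw [map_div₀, map_pow, ← div_eq_mul_inv, div_eq_iff h4, div_mul_eq_mul_div,
    div_mul_eq_mul_div, ← h1, h2, mul_div_assoc, div_self h3, mul_one]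

theorem mod_ne {n l j j' : ℕ} (_hl : l < n) (hj : j < n) (hj' : j' < n)
    (h : (l + j' + (n - j)) % n = l) : j' = j := by
  have h1 : (l + j' + (n - j)) / n * n + l = l + j' + (n - j) := by
    conv_rhs => rw [← Nat.div_add_mod' (l + j' + (n - j)) n, h]
  obtain ⟨q, hq⟩ : ∃ q, q = (l + j' + (n - j)) / n := ⟨_, rfl⟩
  rw [← hq] at h1
  have h2 : q * n = j' + (n - j) := by omega
  have h3 : q = 1 := by
    rcases Nat.lt_or_ge q 1 with h4 | h4
    · have : q = 0 := by omega
      rw [this, zero_mul] at h2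
      omega
    · rcases Nat.lt_or_ge 1 q with h5 | h5
      · have h6 : 2 * n ≤ q * n := Nat.mul_le_mul_right _ h5
        omega
      · omega
  rw [h3] at h2
  omega

theorem val_one (_hp : True) {p : ℕ} (hpp : p.Prime) (hVB : T_VB) {q : ℚ}
    (h0 : padicValRat p q = 0) (v : FinitePlace M) (hv : v.1 (p : M) < 1) (hq : q ≠ 0) :
    v.1 (algebraMap ℚ M q) = 1 := by
  obtain ⟨_, hp0, hint, hm, _⟩ := hVB M p hpp v hv
  have : Fact p.Prime := ⟨hpp⟩
  have h1 : padicValRat p q = padicValInt p q.num - padicValNat p q.den := rfl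
  have hi : padicValInt p q.num = padicValNat p q.num.natAbs := rfl
  have hnum0 : q.num.natAbs ≠ 0 := by
    rw [Int.natAbs_ne_zero]
    exact Rat.num_ne_zero.2 hq
  have hden : ¬ p ∣ q.den := by
    intro hd
    have h2 : 1 ≤ padicValNat p q.den := one_le_padicValNat_of_dvd q.den_nz hd
    have h3 : 1 ≤ padicValNat p q.num.natAbs := by omega
    have h4 : p ∣ q.num.natAbs := dvd_of_one_le_padicValNat h3
    exact Nat.not_coprime_of_dvd_of_dvd hpp.one_lt h4 hd q.reduced
  have hnum : ¬ p ∣ q.num.natAbs := by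
    intro hd
    have h2 : 1 ≤ padicValNat p q.num.natAbs := one_le_padicValNat_of_dvd hnum0 hd
    have h3 : 1 ≤ padicValNat p q.den := by omega
    exact hden (dvd_of_one_le_padicValNat h3)
  have h5 : algebraMap ℚ M q = (q.num : M) / (q.den : M) := by
    rw [eq_ratCast]
    exact Rat.cast_def q
  have h6 : v.1 (q.num : M) = 1 := by
    have h7 := hm q.num.natAbs hnum
    rcases Int.natAbs_eq q.num with h | h
    · rw [h, Int.cast_natCast]
      exact h7
    · rw [h, Int.cast_neg, Int.cast_natCast, AbsoluteValue.map_neg]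
      exact h7
  rw [h5, map_div₀, hm q.den hden, h6, div_one]

end

theorem pf_TRG (hPIL : T_PIL) : T_TRG := by
  classical
  intro K M _ _ _ _ _ r a N θ p hp ha hN hpa hθ hInd hrk z hz
  have hfin : FiniteDimensional K M := Module.Finite.of_restrictScalars_finite ℚ K M
  have hne : Nonempty ((i : Fin r) → Fin (N i)) := ⟨fun i => ⟨0, hN i⟩⟩
  have hcard : Fintype.card ((i : Fin r) → Fin (N i)) = Module.finrank K M := by
    rw [hrk, Fintype.card_pi]
    exact Finset.prod_congr rfl fun i _ => Fintype.card_fin _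
  have hθ0 : ∀ i, θ i ≠ 0 := by
    intro i h
    have h1 := hθ i
    rw [h, zero_pow (hN i).ne'] at h1
    exact ha i ((map_eq_zero _).1 h1.symm)
  obtain ⟨mm, hmm⟩ : ∃ mm : ((i : Fin r) → Fin (N i)) → M, mm = fun j => ∏ i, θ i ^ (j i : ℕ) :=
    ⟨_, rfl⟩
  have hmme : ∀ j, mm j = ∏ i, θ i ^ (j i : ℕ) := fun j => by rw [hmm]
  have hInd' : LinearIndependent K mm := by
    rw [hmm]
    exact hInd
  let b := basisOfLinearIndependentOfCardEqFinrank hInd' hcard
  have hb : ∀ j, b j = mm j := fun j => by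
    rw [coe_basisOfLinearIndependentOfCardEqFinrank]
  have hm0 : ∀ j, mm j ≠ 0 := fun j => by
    rw [hmme]
    exact Finset.prod_ne_zero_iff.2 fun i _ => pow_ne_zero _ (hθ0 i)
  -- traces
  have htr : ∀ j j' : (i : Fin r) → Fin (N i), j' ≠ j →
      Algebra.trace K M (mm j' * (mm j)⁻¹) = 0 := by
    intro j j' hjj
    rw [Algebra.trace_eq_matrix_trace b, Matrix.trace]
    refine Finset.sum_eq_zero fun l _ => ?_
    rw [Matrix.diag_apply, Algebra.leftMulMatrix_eq_repr_mul]
    choose q hq using fun i => one_rad (ha i) (hN i) (hθ i) (l i : ℕ) (j' i : ℕ) (j i : ℕ) (j i).2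
    obtain ⟨l', hl'⟩ : ∃ l' : (i : Fin r) → Fin (N i), l' = fun i =>
        ⟨((l i : ℕ) + (j' i : ℕ) + (N i - (j i : ℕ))) % N i, Nat.mod_lt _ (hN i)⟩ := ⟨_, rfl⟩
    have h1 : mm j' * (mm j)⁻¹ * b l = algebraMap K M (algebraMap ℚ K (∏ i, q i)) * b l' := by
      rw [hb, hb, hmme, hmme, hmme, hmme, ← IsScalarTower.algebraMap_apply, map_prod,
        ← Finset.prod_inv_distrib, ← Finset.prod_mul_distrib, ← Finset.prod_mul_distrib,
        ← Finset.prod_mul_distrib]
      refine Finset.prod_congr rfl fun i _ => ?_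
      rw [hl', ← hq i]
      ring
    have hne' : l' ≠ l := by
      intro h
      apply hjj
      funext i
      have h2 : (l' i : ℕ) = l i := by rw [h]
      rw [hl'] at h2
      exact Fin.ext (mod_ne (l i).2 (j i).2 (j' i).2 h2)
    rw [h1, ← Algebra.smul_def, map_smul, Finsupp.smul_apply, b.repr_self,
      Finsupp.single_eq_of_ne hne'.symm, smul_zero]
  have hz1 : z = ∑ j, b.repr z j • b j := (b.sum_repr z).symm
  refine ⟨fun j => b.repr z j, fun j => ?_, ?_⟩
  · have hw : PInt M p (z * (mm j)⁻¹) := by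
      intro v hv
      have h1 : ∀ i, v.1 (θ i) = 1 := by
        intro i
        have h2 : v.1 (θ i) ^ N i = 1 := by
          rw [← map_pow, hθ i]
          exact val_one trivial hp Pool.Agent.H67.RD.pf_VB (hpa i) v hv (ha i)
        exact (pow_eq_one_iff_of_nonneg (v.1.nonneg _) (hN i).ne').1 h2
      have h2 : v.1 (mm j) = 1 := by
        rw [hmme, map_prod]
        refine Finset.prod_eq_one fun i _ => ?_
        rw [map_pow, h1, one_pow]
      rw [map_mul, map_inv₀, h2, inv_one, mul_one]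
      exact hz v hv
    obtain ⟨k, hk, hint⟩ := (hPIL M p hp _).1 hw
    rw [hPIL K p hp]
    refine ⟨k, hk, ?_⟩
    have h1 : Algebra.trace K M (z * (mm j)⁻¹) = ((∏ i, N i : ℕ) : K) * b.repr z j := by
      have h2 : z * (mm j)⁻¹ = ∑ j', b.repr z j' • (mm j' * (mm j)⁻¹) := by
        conv_lhs => rw [hz1, Finset.sum_mul]
        refine Finset.sum_congr rfl fun j' _ => ?_
        rw [hb, smul_mul_assoc]
      rw [h2, map_sum, Finset.sum_eq_single_of_mem j (Finset.mem_univ _)]
      · rw [mul_inv_cancel₀ (hm0 j), map_smul, smul_eq_mul, mul_comm]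
        congr 1
        have h3 := Algebra.trace_algebraMap (R := K) (S := M) (1 : K)
        rw [map_one, hrk, nsmul_eq_mul, mul_one] at h3
        exact h3
      · intro j' _ hne
        rw [map_smul, htr j j' hne, smul_zero]
    have h2 := Algebra.isIntegral_trace (L := K) hint
    have h3 : Algebra.trace K M ((k : M) * (z * (mm j)⁻¹)) =
        (k : K) * (((∏ i, N i : ℕ) : K) * b.repr z j) := by
      rw [← h1]
      have h4 : (k : M) * (z * (mm j)⁻¹) = (k : K) • (z * (mm j)⁻¹) := by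
        rw [Algebra.smul_def, map_natCast]
      rw [h4, map_smul, smul_eq_mul]
    rw [h3] at h2
    exact h2
  · conv_lhs => rw [hz1]
    refine Finset.sum_congr rfl fun j _ => ?_
    rw [hb, hmme, Algebra.smul_def]

end Pool.Agent.H1.RGD
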